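import Mathlib

/-!
MP_62990a_lc: every cofinal set of Weihrauch degrees has cardinality `2 ^ 𝔠`.
-/

namespace Pool.Agent.Results.MP_62990a_lc.Yes

open Cardinal

/-- A problem: `f p` is the set of admissible outputs, the domain is where it is nonempty. -/
abbrev Prob := (ℕ → ℕ) → Set (ℕ → ℕ)

/-- The functional with machine `m` sends `p` to `q`: for each `n`, the first prefix of `p` on
which `m` answers at `n` gives the answer `q n`. -/
def Out (m : List ℕ → ℕ → Option ℕ) (p q : ℕ → ℕ) : Prop :=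
  ∀ n, ∃ k, m ((List.range k).map p) n = some (q n) ∧ ∀ j < k, m ((List.range j).map p) n = none

/-- The pair of two points of Baire space. -/
def join (p q : ℕ → ℕ) (n : ℕ) : ℕ := if n % 2 = 0 then p (n / 2) else q (n / 2)

/-- Weihrauch reducibility. -/
def Red (f g : Prob) : Prop :=
  ∃ m m' : List ℕ → ℕ → Option ℕ, Computable₂ m ∧ Computable₂ m' ∧ ∀ p, (f p).Nonempty →
    ∃ x, Out m p x ∧ (g x).Nonempty ∧ ∀ q ∈ g x, ∃ r, Out m' (join p q) r ∧ r ∈ f p

/-- The Weihrauch degree of a problem. -/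
def deg (f : Prob) : Set Prob := {g | Red f g ∧ Red g f}

theorem Out.uniq {m : List ℕ → ℕ → Option ℕ} {p q q' : ℕ → ℕ} (h : Out m p q) (h' : Out m p q') :
    q = q' := by
  funext n
  obtain ⟨k, a, b⟩ := h n
  obtain ⟨k', a', b'⟩ := h' n
  rcases lt_trichotomy k k' with e | rfl | e
  · simp [b' k e] at a
  · simpa [a] using a'
  · simp [b k' e] at a'

theorem out_idx (s : ℕ → ℕ) (p : ℕ → ℕ) : Out (fun σ n => σ[s n]?) p fun n => p (s n) :=
  fun n => ⟨s n + 1, by simp, fun j hj => by simp; omega⟩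

theorem refl (f : Prob) : Red f f := by
  refine ⟨fun σ n => σ[n]?, fun σ n => σ[2 * n + 1]?, Primrec.list_getElem?.to_comp,
    (Primrec.list_getElem?.comp Primrec.fst (Primrec.succ.comp
      (Primrec.nat_mul.comp (Primrec.const 2) Primrec.snd))).to_comp,
    fun p hp => ⟨p, out_idx id p, hp, fun q hq => ⟨q, ?_, hq⟩⟩⟩
  have := out_idx (fun n => 2 * n + 1) (join p q)
  have e : (fun n => join p q (2 * n + 1)) = q := funext fun n => by
    have : (2 * n + 1) / 2 = n := by omega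
    simp [join, this]
  rwa [e] at this

theorem cnt : Countable {m : List ℕ → ℕ → Option ℕ // Computable₂ m} := by
  have h : ∀ m : {m : List ℕ → ℕ → Option ℕ // Computable₂ m}, ∃ c : Nat.Partrec.Code,
      ∀ a : List ℕ × ℕ, c.eval (Encodable.encode a) = Part.some (Encodable.encode (m.1 a.1 a.2)) :=
    fun m => by
      obtain ⟨c, hc⟩ := Nat.Partrec.Code.exists_code.1 m.2
      exact ⟨c, fun a => by rw [hc]; simp only [Encodable.encodek]; simp⟩
  choose c hc using h
  refine Function.Injective.countable (f := c) fun m m' e => Subtype.ext ?_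
  funext σ n
  have := hc m (σ, n)
  rw [e, hc m'] at this
  simpa using this.symm

theorem result (D : Set (Set Prob)) (hD : ∀ d ∈ D, ∃ g, d = deg g)
    (hc : ∀ f, ∃ g, deg g ∈ D ∧ Red f g) : #D = 2 ^ 𝔠 := by
  have c1 : #(ℕ → ℕ) = 𝔠 := by simp
  apply le_antisymm
  · calc #D ≤ #(Set.range deg) := mk_le_mk_of_subset fun d h => (hD d h).imp fun _ e => e.symm
      _ ≤ #Prob := mk_range_le
      _ = 2 ^ 𝔠 := by
        rw [← power_def, mk_set, c1, ← power_mul, continuum_mul_self]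
  · have := cnt
    choose r hr using hD
    let C := {m : List ℕ → ℕ → Option ℕ // Computable₂ m}
    have key : ∀ F : (ℕ → ℕ) → ℕ → ℕ, ∃ t : D × C × C × C × C, ∀ p, ∃ x y,
        Out t.2.1.1 p x ∧ Out t.2.2.1.1 x y ∧ (r t.1.1 t.1.2 y).Nonempty ∧
        ∀ q ∈ r t.1.1 t.1.2 y, ∃ z, Out t.2.2.2.1.1 (join x q) z ∧
          Out t.2.2.2.2.1 (join p z) (F p) := fun F => by
      obtain ⟨g, h1, m1, m1', a1, a2, a3⟩ := hc fun p => {F p}
      have : g ∈ deg (r _ h1) := hr _ h1 ▸ (⟨refl g, refl g⟩ : g ∈ deg g)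
      obtain ⟨m2, m2', b1, b2, b3⟩ := this.2
      refine ⟨(⟨_, h1⟩, ⟨m1, a1⟩, ⟨m2, b1⟩, ⟨m2', b2⟩, ⟨m1', a2⟩), fun p => ?_⟩
      obtain ⟨x, k1, k2, k3⟩ := a3 p ⟨_, rfl⟩
      obtain ⟨y, l1, l2, l3⟩ := b3 x k2
      refine ⟨x, y, k1, l1, l2, fun q hq => ?_⟩
      obtain ⟨z, z1, z2⟩ := l3 q hq
      obtain ⟨w, w1, rfl⟩ := k3 z z2
      exact ⟨z, z1, w1⟩
    choose t ht using key
    have hi : Function.Injective t := fun F F' e => funext fun p => by
      obtain ⟨x, y, a1, a2, ⟨q, a3⟩, a4⟩ := ht F p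
      obtain ⟨x', y', b1, b2, -, b4⟩ := ht F' p
      rw [← e] at b1 b2 b4
      obtain rfl := a1.uniq b1
      obtain rfl := a2.uniq b2
      obtain ⟨z, z1, z2⟩ := a4 q a3
      obtain ⟨z', w1, w2⟩ := b4 q a3
      obtain rfl := z1.uniq w1
      exact z2.uniq w2
    have h1 := mk_le_of_injective hi
    rw [← power_def, c1, power_self_eq aleph0_le_continuum, mk_prod, lift_id, lift_id] at h1
    by_contra h
    exact absurd h1 (not_le.2 (mul_lt_of_lt (aleph0_le_continuum.trans (cantor _).le) (not_le.1 h)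
      (mk_le_aleph0.trans_lt (aleph0_le_continuum.trans_lt (cantor _)))))

end Pool.Agent.Results.MP_62990a_lc.Yes
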